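import Pool.Agent.H740R3.AQStmts

set_option autoImplicit false
set_option synthInstance.maxHeartbeats 400000

open Filter Topology
open scoped InnerProductSpace

namespace Pool.Agent.H468R3.AQ

open Pool.Agent.H740R3.AQ

theorem pow_sym (A : H →L[ℂ] H) (hA : ∀ x y, b (A x) y = b x (A y)) (n : ℕ) :
    ∀ x y, b ((A ^ n) x) y = b x ((A ^ n) y) := by
  induction n with
  | zero => intro x y; rfl
  | succ n ih =>
    intro x y
    have h1 : (A ^ (n + 1)) x = A ((A ^ n) x) := by rw [pow_succ']; rfl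
    have h2 : (A ^ (n + 1)) y = (A ^ n) (A y) := by rw [pow_succ]; rfl
    rw [h1, h2, hA, ih]

/-- the functional `T ↦ b y (T x)` -/
noncomputable def Fn (x y : H) : (H →L[ℂ] H) →L[ℂ] ℂ :=
  (innerSL ℂ (star y)).comp (ContinuousLinearMap.apply ℂ H x)

theorem Fn_apply (x y : H) (T : H →L[ℂ] H) : Fn x y T = b y (T x) := rfl

theorem exp_sym (A : H →L[ℂ] H) (hA : ∀ x y, b (A x) y = b x (A y)) (x y : H) :
    b (NormedSpace.exp A x) y = b x (NormedSpace.exp A y) := by
  have hs : HasSum (fun n : ℕ => ((n.factorial : ℂ)⁻¹) • A ^ n) (NormedSpace.exp A) :=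
    NormedSpace.exp_series_hasSum_exp' A
  have h1 := hs.mapL (Fn x y)
  have h2 := hs.mapL (Fn y x)
  have e : (fun n : ℕ => Fn x y (((n.factorial : ℂ)⁻¹) • A ^ n)) =
      fun n : ℕ => Fn y x (((n.factorial : ℂ)⁻¹) • A ^ n) := by
    funext n
    rw [map_smul, map_smul, Fn_apply, Fn_apply, b_comm, pow_sym A hA n]
  rw [e] at h1
  have := h1.unique h2
  rw [Fn_apply, Fn_apply] at this
  rw [b_comm, this]

theorem prod_pow (T : H →L[ℂ] H) (n : ℕ) (z : H × H) :
    ((T.prodMap T) ^ n) z = ((T ^ n) z.1, (T ^ n) z.2) := by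
  induction n with
  | zero => rfl
  | succ n ih =>
    have h0 : ((T.prodMap T) ^ (n + 1)) z = (T.prodMap T) (((T.prodMap T) ^ n) z) := by
      rw [pow_succ']; rfl
    have h1 : (T ^ (n + 1)) z.1 = T ((T ^ n) z.1) := by rw [pow_succ']; rfl
    have h2 : (T ^ (n + 1)) z.2 = T ((T ^ n) z.2) := by rw [pow_succ']; rfl
    rw [h0, h1, h2, ih]
    rfl

theorem taskNoncyc : TaskNoncyc := by
  intro A hA ⟨z, hz⟩
  set T : H →L[ℂ] H := NormedSpace.exp A with hT
  have hTs : ∀ x y, b (T x) y = b x (T y) := exp_sym A hA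
  set Φ : (H × H) →L[ℂ] ℂ := (innerSL ℂ (star z.2)).comp (ContinuousLinearMap.fst ℂ H H) -
    (innerSL ℂ (star z.1)).comp (ContinuousLinearMap.snd ℂ H H) with hΦ
  have hΦa : ∀ w : H × H, Φ w = b z.2 w.1 - b z.1 w.2 := fun w => rfl
  have hker : (Submodule.span ℂ (Set.range (fun n : ℕ => ((T.prodMap T) ^ n) z))) ≤
      LinearMap.ker Φ.toLinearMap := by
    rw [Submodule.span_le]
    rintro _ ⟨n, rfl⟩
    show Φ (((T.prodMap T) ^ n) z) = 0
    rw [hΦa, prod_pow]
    show b z.2 ((T ^ n) z.1) - b z.1 ((T ^ n) z.2) = 0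
    rw [← pow_sym T hTs n z.1 z.2, b_comm z.2, sub_self]
  have hcl : IsClosed ((LinearMap.ker Φ.toLinearMap : Submodule ℂ (H × H)) : Set (H × H)) :=
    Φ.isClosed_ker
  have hall : ∀ w, Φ w = 0 := by
    intro w
    have h1 : w ∈ closure ((Submodule.span ℂ (Set.range (fun n : ℕ =>
      ((T.prodMap T) ^ n) z)) : Submodule ℂ (H × H)) : Set (H × H)) := hz w
    exact (hcl.closure_subset_iff.2 hker) h1
  have hy : z.2 = 0 := by
    have h1 := hall (star z.2, 0)
    rw [hΦa] at h1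
    simp only [b_zero_right, sub_zero] at h1
    rw [b_comm, b_star] at h1
    simpa using h1
  have hx : z.1 = 0 := by
    have h1 := hall (0, star z.1)
    rw [hΦa] at h1
    simp only [b_zero_right, zero_sub, neg_eq_zero] at h1
    rw [b_comm, b_star] at h1
    simpa using h1
  have hz0 : z = 0 := Prod.ext hx hy
  have hbot : (Submodule.span ℂ (Set.range (fun n : ℕ => ((T.prodMap T) ^ n) z))) = ⊥ := by
    rw [Submodule.span_eq_bot]
    rintro _ ⟨n, rfl⟩
    show ((T.prodMap T) ^ n) z = 0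
    rw [hz0, map_zero]
  rw [hbot] at hz
  have h2 : ((e 0, 0) : H × H) ∈ closure ((⊥ : Submodule ℂ (H × H)) : Set (H × H)) := hz _
  rw [Submodule.bot_coe, closure_singleton] at h2
  have h3 : e 0 = 0 := congrArg Prod.fst h2
  have h4 := norm_e 0
  rw [h3, norm_zero] at h4
  exact zero_ne_one h4

end Pool.Agent.H468R3.AQ
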